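import Pool.Agent.BPD.FastE
import Pool.Agent.BPD.FastL
import Pool.Agent.BPM.Member

/-!
# Q1 iff E = ESPACE: the difficulty of critical update families is complete for ESPACE

(1) The difficulty of critical families can be computed in time `C exp (a size)` for some constants
`a`, `C` if and only if E = ESPACE. (2) `Hard`: to decide whether the difficulty of a critical family
is at most `K` is hard for ESPACE under polynomial time reductions with families of linear size.
(3) The same problem is in ESPACE. (4) There is `a > 0` such that the time `C exp (a size)` is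
impossible for every `C`.
-/

set_option autoImplicit false

namespace Pool.Agent.Results.MP_3d6b9a_lc.DifficultyEspaceComplete

open Pool.Agent.BPD Pool.Agent.PF

theorem result :
    ((∃ a : ℝ, FastAlg a) ↔ ∀ L : Set (List Bool), InE L ↔ InESPACE L) ∧
    Hard ∧
    (∃ P : Set (List Bool), InESPACE P ∧
      ∀ c : Code, Valid c → Critical (fam c) → ∀ K : ℕ,
        ((enc (c, K.bits)).code ∈ P ↔ difficulty (fam c) ≤ K)) ∧
    ∃ a : ℝ, 0 < a ∧ ¬ FastAlg a :=
  ⟨⟨fun ⟨_, ha⟩ _ => ⟨inESPACE_of_inE, inE_of_fast ha⟩,
    fun h => Pool.Agent.BPM.exists_fast fun L hL => (h L).2 hL⟩,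
    hard, Pool.Agent.BPM.exists_lang, exists_lower⟩

end Pool.Agent.Results.MP_3d6b9a_lc.DifficultyEspaceComplete
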